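import Pool.Agent.H23.QCF.Targets

/-! row KDET of MP_63b6b1_nt (board qcf): detection of independent elements -/

set_option autoImplicit false

open NumberField IsDedekindDomain Pool.Agent.H23.QCF
open Pool.Agent.H32.QC (Sol hil Iso FPl Pl ic hs sqAt HasseConic ProdFormula Prescribed)

namespace Pool.Agent.H38.QCF

/-- finitely many places lie over a finite set of places -/
lemma fin_under (K E : Type) [Field K] [NumberField K] [Field E] [NumberField E] [Algebra K E]
    (A : Set (FPl K)) (hA : A.Finite) : {w : FPl E | w.under (𝓞 K) ∈ A}.Finite := by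
  have h1 : {w : FPl E | w.under (𝓞 K) ∈ A} ⊆
      ⋃ v ∈ A, {w : FPl E | w.under (𝓞 K) = v} := by
    intro w hw
    exact Set.mem_biUnion hw rfl
  refine (hA.biUnion fun v _ => ?_).subset h1
  have hm : v.asIdeal.IsMaximal := v.isMaximal
  have hf : (v.asIdeal.primesOver (𝓞 E)).Finite := IsDedekindDomain.primesOver_finite v.asIdeal (𝓞 E)
  refine Set.Finite.of_finite_image (f := fun w : FPl E => w.asIdeal) (hf.subset ?_) ?_
  · rintro _ ⟨w, hw, rfl⟩
    refine ⟨w.isPrime, ⟨?_⟩⟩
    have h2 : (w.under (𝓞 K)).asIdeal = v.asIdeal := by rw [hw]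
    exact h2.symm
  · intro w _ w' _ h
    exact HeightOneSpectrum.ext h

/-- finitely many places are no units -/
lemma fin_val {K : Type} [Field K] [NumberField K] (x : K) (hx : x ≠ 0) :
    {v : FPl K | v.valuation K x ≠ 1}.Finite := by
  refine ((HeightOneSpectrum.Support.finite (𝓞 K) x).union
    (HeightOneSpectrum.Support.finite (𝓞 K) x⁻¹)).subset ?_
  intro v hv
  rcases lt_or_gt_of_ne (hv : v.valuation K x ≠ 1) with h | h
  · right
    show 1 < v.valuation K x⁻¹
    rw [map_inv₀]
    exact (one_lt_inv₀ (zero_lt_iff.2 ((Valuation.ne_zero_iff _).2 hx))).2 h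
  · exact Or.inl h

lemma mem_sqs {K : Type} [Field K] (t : Kˣ) : t ∈ sqs K ↔ IsSquare (t : K) := by
  constructor
  · rintro ⟨c, hc⟩
    refine ⟨(c : K), ?_⟩
    rw [← hc]
    show ((c ^ 2 : Kˣ) : K) = c * c
    rw [Units.val_pow_eq_pow_val, sq]
  · rintro ⟨c, hc⟩
    have hc0 : c ≠ 0 := by
      rintro rfl
      rw [mul_zero] at hc
      exact t.ne_zero hc
    refine ⟨Units.mk0 c hc0, ?_⟩
    ext
    show (((Units.mk0 c hc0) ^ 2 : Kˣ) : K) = t
    rw [Units.val_pow_eq_pow_val, Units.val_mk0, hc, sq]

theorem pf_DET (h3 : T_B3) (hext : T_EXT) (hsig : T_SIG) (hfs : T_FUNS) (huus : T_UUS)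
    (hv1 : T_VONE) : T_DET := by
  intro n
  induction n with
  | zero =>
    intro K _ _ t l ht A hA
    have hns : ¬ IsSquare (t : K) := fun h =>
      ht ((le_sup_left : sqs K ≤ _) ((mem_sqs t).2 h))
    obtain ⟨v, hv1', hv2⟩ := h3 K t hns A hA
    exact ⟨v, hv1', hv2, fun i => i.elim0⟩
  | succ n ih =>
    intro K _ _ t l ht A hA
    set l' : Fin n → Kˣ := fun i => l i.castSucc with hl'
    set r : Kˣ := l (Fin.last n) with hr
    have hsub : Subgroup.closure (Set.range l') ≤ Subgroup.closure (Set.range l) :=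
      Subgroup.closure_mono (by
        rintro _ ⟨i, rfl⟩
        exact ⟨i.castSucc, rfl⟩)
    by_cases hrs : r ∈ sqs K
    · obtain ⟨v, a1, a2, a3⟩ := ih K t l' (fun h => ht (sup_le_sup_left hsub _ h)) A hA
      refine ⟨v, a1, a2, fun i => ?_⟩
      induction i using Fin.lastCases with
      | last =>
        obtain ⟨c, hc⟩ := (mem_sqs r).1 hrs
        show IsSquare (ic v (r : K))
        rw [hc, map_mul]
        exact ⟨_, rfl⟩
      | cast i => exact a3 i
    · have hrn : ¬ IsSquare (r : K) := fun h => hrs ((mem_sqs r).2 h)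
      obtain ⟨E, iE1, iE2, iE3, s, hQ⟩ := hext K (r : K) hrn
      obtain ⟨σ, -, -, -, -, -, -, hsqE⟩ := hsig K E (r : K) s hQ
      set φ : Kˣ →* Eˣ := Units.map (algebraMap K E : K →* E) with hφ
      have hφv : ∀ x : Kˣ, ((φ x : Eˣ) : E) = algebraMap K E (x : K) := fun x => rfl
      have htE : φ t ∉ sqs E ⊔ Subgroup.closure (Set.range fun i => φ (l' i)) := by
        intro hcon
        have e1 : Set.range (fun i => φ (l' i)) = φ '' Set.range l' := by
          rw [← Set.range_comp]
          rfl
        rw [e1, ← MonoidHom.map_closure, Subgroup.mem_sup] at hcon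
        obtain ⟨q, hq, y, ⟨m, hm, rfl⟩, hqm⟩ := hcon
        have hq2 : φ (t * m⁻¹) = q := by
          rw [map_mul, map_inv, ← hqm, mul_inv_cancel_right]
        have hsq := (mem_sqs q).1 hq
        rw [← hq2, hφv] at hsq
        have hmL : m ∈ sqs K ⊔ Subgroup.closure (Set.range l) :=
          (le_sup_right : Subgroup.closure (Set.range l) ≤ _) (hsub hm)
        have hrL : r ∈ sqs K ⊔ Subgroup.closure (Set.range l) :=
          (le_sup_right : Subgroup.closure (Set.range l) ≤ _) (Subgroup.subset_closure ⟨_, rfl⟩)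
        rcases hsqE _ hsq with h | h
        · have h1 : t * m⁻¹ ∈ sqs K ⊔ Subgroup.closure (Set.range l) :=
            (le_sup_left : sqs K ≤ _) ((mem_sqs _).2 h)
          have h2 := Subgroup.mul_mem _ h1 hmL
          rw [inv_mul_cancel_right] at h2
          exact ht h2
        · rw [← Units.val_mul] at h
          have h1 : t * m⁻¹ * r ∈ sqs K ⊔ Subgroup.closure (Set.range l) :=
            (le_sup_left : sqs K ≤ _) ((mem_sqs _).2 h)
          have h2 := Subgroup.mul_mem _ (Subgroup.mul_mem _ h1 (Subgroup.inv_mem _ hrL)) hmL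
          rw [mul_inv_cancel_right, inv_mul_cancel_right] at h2
          exact ht h2
      set A' : Set (FPl K) := A ∪ {v | v.valuation K 2 ≠ 1} ∪ {v | v.valuation K (t : K) ≠ 1} ∪
        ⋃ i, {v | v.valuation K (l i : K) ≠ 1} with hA'
      have hA'f : A'.Finite :=
        ((hA.union (fin_val 2 two_ne_zero)).union (fin_val (t : K) t.ne_zero)).union
          (Set.finite_iUnion fun i => fin_val (l i : K) (l i).ne_zero)
      obtain ⟨w, b1, b2, b3⟩ := ih E (φ t) (fun i => φ (l' i)) htE {w : FPl E | w.under (𝓞 K) ∈ A'}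
        (fin_under K E A' hA'f)
      set v : FPl K := w.under (𝓞 K) with hv
      have hvA : v ∉ A' := b1
      have c1 : v ∉ A := fun h => hvA (Or.inl (Or.inl (Or.inl h)))
      have c2 : v.valuation K 2 = 1 := by
        by_contra h
        exact hvA (Or.inl (Or.inl (Or.inr h)))
      have c3 : v.valuation K (t : K) = 1 := by
        by_contra h
        exact hvA (Or.inl (Or.inr h))
      have c4 : ∀ i, v.valuation K (l i : K) = 1 := by
        intro i
        by_contra h
        exact hvA (Or.inr (Set.mem_iUnion.2 ⟨i, h⟩))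
      have hup : ∀ x : K, sqAt (.inl v) x → IsSquare (ic w (algebraMap K E x)) := fun x hx =>
        hfs K E (.inl w) x hx
      have hbt : ¬ IsSquare (ic w (algebraMap K E (t : K))) := b2
      have hnt : ¬ sqAt (.inl v) (t : K) := fun h => hbt (hup _ h)
      -- squares in `E` do not matter
      have key : ∀ x : K, x ≠ 0 → v.valuation K x = 1 → IsSquare (ic w (algebraMap K E x)) →
          sqAt (.inl v) x := by
        intro x hx0 hx1 hx
        by_contra hcon
        have h1 := hup _ (huus K v (t : K) x c2 c3 hx1 hnt hcon)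
        rw [map_mul, map_mul] at h1
        have hne : ic w (algebraMap K E x) ≠ 0 := by
          rw [map_ne_zero, map_ne_zero]
          exact hx0
        have h2 := h1.div hx
        rw [mul_div_cancel_right₀ _ hne] at h2
        exact hbt h2
      refine ⟨v, c1, hnt, fun i => ?_⟩
      induction i using Fin.lastCases with
      | last =>
        refine key _ (l (Fin.last n)).ne_zero (c4 _) ?_
        have h1 : algebraMap K E (r : K) = s ^ 2 := hQ.sq.symm
        show IsSquare (ic w (algebraMap K E (r : K)))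
        rw [h1, map_pow]
        exact ⟨ic w s, sq _⟩
      | cast i => exact key _ (l i.castSucc).ne_zero (c4 _) (b3 i)

end Pool.Agent.H38.QCF
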