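import Pool.Agent.H23.QCF.Targets

/-! row KSIG of MP_63b6b1_nt (board qcf): the conjugation of a quadratic extension -/

set_option autoImplicit false

open NumberField IsDedekindDomain Pool.Agent.H23.QCF
open Pool.Agent.H32.QC (Sol hil Iso FPl Pl ic hs sqAt HasseConic ProdFormula Prescribed)

namespace Pool.Agent.H38.QCF

theorem pf_SIG : T_SIG := by
  intro K E _ _ _ _ _ t s hQ
  have hs2 : s * s = algebraMap K E t := by rw [← sq]; exact hQ.sq
  have hinj : Function.Injective (algebraMap K E) := (algebraMap K E).injective
  have hns : ∀ c : K, algebraMap K E c ≠ s := by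
    intro c hc
    apply hQ.nsq
    refine ⟨c, hinj ?_⟩
    rw [map_mul, hc, hs2]
  have hli : LinearIndependent K ![(1 : E), s] := by
    rw [LinearIndependent.pair_iff]
    intro a b hab
    rw [Algebra.smul_def, Algebra.smul_def, mul_one] at hab
    by_cases hb : b = 0
    · rw [hb, map_zero, zero_mul, add_zero] at hab
      exact ⟨hinj (by rw [hab, map_zero]), hb⟩
    · exfalso
      apply hns (-a / b)
      have hb' : algebraMap K E b ≠ 0 := fun h => hb (hinj (by rw [h, map_zero]))
      rw [map_div₀, map_neg, div_eq_iff hb']
      linear_combination -hab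
  have hcard : Fintype.card (Fin 2) = Module.finrank K E := by rw [hQ.deg]; rfl
  let B := basisOfLinearIndependentOfCardEqFinrank hli hcard
  have hB0 : B 0 = 1 := by
    show (basisOfLinearIndependentOfCardEqFinrank hli hcard) 0 = 1
    rw [coe_basisOfLinearIndependentOfCardEqFinrank]
    rfl
  have hB1 : B 1 = s := by
    show (basisOfLinearIndependentOfCardEqFinrank hli hcard) 1 = s
    rw [coe_basisOfLinearIndependentOfCardEqFinrank]
    rfl
  have hB : ∀ x, x = algebraMap K E (B.repr x 0) + algebraMap K E (B.repr x 1) * s := by
    intro x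
    have h := B.sum_repr x
    rw [Fin.sum_univ_two, hB0, hB1, Algebra.smul_def, Algebra.smul_def, mul_one] at h
    exact h.symm
  have huniq : ∀ a b a' b' : K, algebraMap K E a + algebraMap K E b * s =
      algebraMap K E a' + algebraMap K E b' * s → a = a' ∧ b = b' := by
    intro a b a' b' h
    have h1 := LinearIndependent.pair_iff.1 hli (a - a') (b - b') (by
      rw [Algebra.smul_def, Algebra.smul_def, mul_one, map_sub, map_sub]
      linear_combination h)
    exact ⟨sub_eq_zero.1 h1.1, sub_eq_zero.1 h1.2⟩
  have hr : ∀ a b : K, B.repr (algebraMap K E a + algebraMap K E b * s) 0 = a ∧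
      B.repr (algebraMap K E a + algebraMap K E b * s) 1 = b := by
    intro a b
    exact huniq _ _ _ _ (hB _).symm
  let f : E → E := fun x => algebraMap K E (B.repr x 0) - algebraMap K E (B.repr x 1) * s
  have hf : ∀ a b : K, f (algebraMap K E a + algebraMap K E b * s) =
      algebraMap K E a - algebraMap K E b * s := by
    intro a b
    show algebraMap K E (B.repr _ 0) - algebraMap K E (B.repr _ 1) * s = _
    rw [(hr a b).1, (hr a b).2]
  have hfa : ∀ a : K, f (algebraMap K E a) = algebraMap K E a := by
    intro a
    have h := hf a 0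
    simpa using h
  let φ : E →ₐ[K] E :=
    { toFun := f
      map_one' := by
        have h := hfa 1
        rwa [map_one] at h
      map_mul' := by
        intro x y
        rw [hB x, hB y]
        generalize B.repr x 0 = a
        generalize B.repr x 1 = b
        generalize B.repr y 0 = c
        generalize B.repr y 1 = d
        rw [hf a b, hf c d]
        have h := hf (a * c + b * d * t) (a * d + b * c)
        have e : algebraMap K E (a * c + b * d * t) + algebraMap K E (a * d + b * c) * s =
            (algebraMap K E a + algebraMap K E b * s) * (algebraMap K E c + algebraMap K E d * s) := by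
          simp only [map_add, map_mul]
          rw [← hs2]
          ring
        rw [← e, h]
        simp only [map_add, map_mul]
        rw [← hs2]
        ring
      map_zero' := by
        have h := hfa 0
        rwa [map_zero] at h
      map_add' := by
        intro x y
        show algebraMap K E (B.repr (x + y) 0) - algebraMap K E (B.repr (x + y) 1) * s =
          (algebraMap K E (B.repr x 0) - algebraMap K E (B.repr x 1) * s) +
          (algebraMap K E (B.repr y 0) - algebraMap K E (B.repr y 1) * s)
        rw [map_add, Finsupp.add_apply, Finsupp.add_apply, map_add, map_add]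
        ring
      commutes' := hfa }
  have hφφ : ∀ x, φ (φ x) = x := by
    intro x
    obtain ⟨a, b, hx⟩ : ∃ a b : K, x = algebraMap K E a + algebraMap K E b * s := ⟨_, _, hB x⟩
    rw [hx]
    show f (f _) = _
    rw [hf]
    have h := hf a (-b)
    have e : algebraMap K E a + algebraMap K E (-b) * s = algebraMap K E a - algebraMap K E b * s := by
      rw [map_neg]
      ring
    rw [e] at h
    rw [h, map_neg]
    ring
  have hcomp : φ.comp φ = AlgHom.id K E := by
    ext x
    exact hφφ x
  let σ : E ≃ₐ[K] E := AlgEquiv.ofAlgHom φ φ hcomp hcomp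
  have hσ : ∀ a b : K, σ (algebraMap K E a + algebraMap K E b * s) =
      algebraMap K E a - algebraMap K E b * s := hf
  have hnorm : ∀ a b : K, Algebra.norm K (algebraMap K E a + algebraMap K E b * s) =
      a ^ 2 - t * b ^ 2 := by
    intro a b
    have e1 : (algebraMap K E a + algebraMap K E b * s) * s =
        algebraMap K E (t * b) + algebraMap K E a * s := by
      rw [map_mul, ← hs2]
      ring
    rw [Algebra.norm_eq_matrix_det B, Matrix.det_fin_two]
    rw [Algebra.leftMulMatrix_eq_repr_mul, Algebra.leftMulMatrix_eq_repr_mul,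
      Algebra.leftMulMatrix_eq_repr_mul, Algebra.leftMulMatrix_eq_repr_mul, hB0, hB1, mul_one, e1,
      (hr a b).1, (hr a b).2, (hr (t * b) a).1, (hr (t * b) a).2]
    ring
  refine ⟨σ, ?_, hφφ, ?_, ?_, fun x => ⟨_, _, hB x⟩, hnorm, ?_⟩
  · have h := hσ 0 1
    simpa using h
  · intro x
    obtain ⟨a, b, hx⟩ : ∃ a b : K, x = algebraMap K E a + algebraMap K E b * s := ⟨_, _, hB x⟩
    rw [hx, hnorm, hσ, map_sub, map_mul, map_pow, map_pow, ← hs2]
    ring
  · intro x hx
    obtain ⟨a, b, hxe⟩ : ∃ a b : K, x = algebraMap K E a + algebraMap K E b * s := ⟨_, _, hB x⟩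
    rw [hxe, hσ] at hx
    have h := huniq a (-b) a b (by rw [map_neg]; linear_combination hx)
    have hb : b = 0 := by
      have h2 : (2 : K) * b = 0 := by linear_combination -h.2
      rcases mul_eq_zero.1 h2 with h3 | h3
      · exact absurd h3 two_ne_zero
      · exact h3
    exact ⟨a, by rw [hxe, hb, map_zero, zero_mul, add_zero]⟩
  · rintro x ⟨y, hy⟩
    obtain ⟨a, b, hye⟩ : ∃ a b : K, y = algebraMap K E a + algebraMap K E b * s := ⟨_, _, hB y⟩
    rw [hye] at hy
    have h := huniq x 0 (a * a + t * (b * b)) (2 * (a * b)) (by
      rw [map_zero, zero_mul, add_zero, hy]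
      simp only [map_add, map_mul, map_ofNat]
      rw [← hs2]
      ring)
    have h2 : a * b = 0 := by
      rcases mul_eq_zero.1 h.2.symm with h3 | h3
      · exact absurd h3 two_ne_zero
      · exact h3
    rcases mul_eq_zero.1 h2 with h3 | h3
    · right
      exact ⟨t * b, by rw [h.1, h3]; ring⟩
    · left
      exact ⟨a, by rw [h.1, h3]; ring⟩

end Pool.Agent.H38.QCF
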